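import Mathlib

/-!
# Translative covering of the unit square by rectangles of total area three

A family of axis-parallel rectangles with sides at most one and total area at least three covers
the unit square by translations.

Method: order the rectangles by decreasing height and put them in rows of total width at least
one; all rectangles of a row except its last one have total width less than one and are at most
as high as the row below, so the area of a row is at most (height of the row below) + (height of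
the row), and the total area is at most one plus twice the sum of the heights of the rows.
-/

namespace Pool.Agent.Results.MP_6800d9_co.UnitSquareAreaThree

open Set Finset

/-- The translate by `v` of the closed rectangle `[0,a] × [0,b]`. -/
def rect (v : ℝ × ℝ) (a b : ℝ) : Set (ℝ × ℝ) :=
  (fun x => v + x) '' Set.Icc ((0 : ℝ), (0 : ℝ)) (a, b)

theorem mem_rect {v x : ℝ × ℝ} {a b : ℝ} :
    x ∈ rect v a b ↔ (v.1 ≤ x.1 ∧ x.1 ≤ v.1 + a) ∧ (v.2 ≤ x.2 ∧ x.2 ≤ v.2 + b) := by
  unfold rect
  constructor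
  · rintro ⟨y, ⟨hy1, hy2⟩, rfl⟩
    have h1 := hy1.1
    have h2 := hy1.2
    have h3 := hy2.1
    have h4 := hy2.2
    simp only [Prod.fst_add, Prod.snd_add] at *
    refine ⟨⟨?_, ?_⟩, ?_, ?_⟩ <;> linarith
  · rintro ⟨⟨h1, h2⟩, h3, h4⟩
    refine ⟨x - v, ⟨⟨?_, ?_⟩, ?_, ?_⟩, ?_⟩
    · simp only [Prod.fst_sub]; linarith
    · simp only [Prod.snd_sub]; linarith
    · simp only [Prod.fst_sub]; linarith
    · simp only [Prod.snd_sub]; linarith
    · simp

/-- The rectangles with index in `F` can be translated so as to cover `A`. -/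
def Cov {ι : Type*} (a b : ι → ℝ) (F : Set ι) (A : Set (ℝ × ℝ)) : Prop :=
  ∃ v : ι → ℝ × ℝ, A ⊆ ⋃ i ∈ F, rect (v i) (a i) (b i)

theorem Cov.union {ι : Type*} {a b : ι → ℝ} {F G : Set ι} {A B : Set (ℝ × ℝ)}
    (h1 : Cov a b F A) (h2 : Cov a b G B) (hd : Disjoint F G) : Cov a b (F ∪ G) (A ∪ B) := by
  classical
  obtain ⟨v, hv⟩ := h1
  obtain ⟨w, hw⟩ := h2
  refine ⟨fun i => if i ∈ F then v i else w i, ?_⟩
  rintro x (hx | hx)
  · have := hv hx
    simp only [mem_iUnion] at this ⊢
    obtain ⟨i, hi, hxi⟩ := this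
    exact ⟨i, Or.inl hi, by simpa [hi] using hxi⟩
  · have := hw hx
    simp only [mem_iUnion] at this ⊢
    obtain ⟨i, hi, hxi⟩ := this
    have hni : i ∉ F := fun h => Set.disjoint_left.1 hd h hi
    exact ⟨i, Or.inr hi, by simpa [hni] using hxi⟩

/-- Intervals of total length `L` cover an interval of length `L`. -/
theorem line_finite {ι : Type*} (a : ι → ℝ) (S : Finset ι) :
    S.Nonempty → ∀ c : ℝ, ∃ x : ι → ℝ, ∀ y, c ≤ y → y ≤ c + ∑ i ∈ S, a i →
      ∃ i ∈ S, x i ≤ y ∧ y ≤ x i + a i := by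
  classical
  intro hS
  induction hS using Finset.Nonempty.cons_induction with
  | singleton i =>
    intro c
    refine ⟨fun _ => c, fun y h1 h2 => ⟨i, by simp, h1, by simpa using h2⟩⟩
  | cons i S hi hS ih =>
    intro c
    obtain ⟨x, hx⟩ := ih (c + a i)
    refine ⟨fun j => if j = i then c else x j, fun y h1 h2 => ?_⟩
    by_cases hy : y ≤ c + a i
    · exact ⟨i, by simp, by simpa using h1, by simpa using hy⟩
    · rw [Finset.sum_cons] at h2
      obtain ⟨j, hj, hj1, hj2⟩ := hx y (le_of_lt (not_le.1 hy)) (by linarith)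
      have hji : j ≠ i := fun h => hi (h ▸ hj)
      exact ⟨j, by simp [hj], by simpa [hji] using hj1, by simpa [hji] using hj2⟩

/-- A row of rectangles of total width at least one and heights at least `h`. -/
theorem row_finite {ι : Type*} (a b : ι → ℝ) (S : Finset ι) (h y0 : ℝ)
    (hb : ∀ i ∈ S, h ≤ b i) (hS : 1 ≤ ∑ i ∈ S, a i) :
    Cov a b (S : Set ι) (Set.Icc 0 1 ×ˢ Set.Icc y0 (y0 + h)) := by
  have hne : S.Nonempty := by
    rw [Finset.nonempty_iff_ne_empty]
    rintro rfl
    norm_num at hS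
  obtain ⟨x, hx⟩ := line_finite a S hne 0
  refine ⟨fun i => (x i, y0), ?_⟩
  rintro ⟨p, q⟩ ⟨⟨hp0, hp1⟩, hq0, hq1⟩
  obtain ⟨i, hi, h1, h2⟩ := hx p hp0 (by simp only at hp1; linarith)
  simp only [mem_iUnion]
  refine ⟨i, hi, mem_rect.2 ⟨⟨h1, h2⟩, hq0, ?_⟩⟩
  have := hb i hi
  simp only at hq1 ⊢
  linarith

/-- The greedy row covering of a finite family. -/
theorem greedy {ι : Type*} (a b : ι → ℝ) (ha : ∀ i, 0 ≤ a i) (ha1 : ∀ i, a i ≤ 1)
    (hb : ∀ i, 0 ≤ b i) (n : ℕ) :
    ∀ (F : Finset ι), F.card = n → ∀ (c : ℝ), 0 ≤ c →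
      (∀ S ⊆ F, ∑ i ∈ S, a i < 1 → ∑ i ∈ S, a i * b i ≤ c) → ∀ y0 : ℝ,
      ∃ H : ℝ, 0 ≤ H ∧ Cov a b (F : Set ι) (Set.Icc 0 1 ×ˢ Set.Ico y0 (y0 + H)) ∧
        ∑ i ∈ F, a i * b i ≤ c + 2 * H := by
  classical
  induction n using Nat.strong_induction_on with
  | _ n ih =>
  intro F hF c hc hcF y0
  by_cases hsum : ∑ i ∈ F, a i < 1
  · refine ⟨0, le_rfl, ⟨fun _ => 0, ?_⟩, ?_⟩
    · simp
    · have := hcF F subset_rfl hsum
      linarith
  · rw [not_lt] at hsum
    -- the sets that can serve as a first row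
    let P : Finset (Finset ι) := F.powerset.filter fun S =>
      1 ≤ ∑ i ∈ S, a i ∧ ∀ i ∈ S, ∀ j ∈ F \ S, b j ≤ b i
    have hPne : P.Nonempty := by
      refine ⟨F, ?_⟩
      simp only [P, Finset.mem_filter, Finset.mem_powerset]
      refine ⟨subset_rfl, hsum, fun i _ j hj => ?_⟩
      exact absurd (Finset.mem_sdiff.1 hj).1 (Finset.mem_sdiff.1 hj).2
    obtain ⟨S, hSP, hSmin⟩ := Finset.exists_min_image P Finset.card hPne
    obtain ⟨hSF, hS1, hS2⟩ : S ⊆ F ∧ 1 ≤ ∑ i ∈ S, a i ∧ ∀ i ∈ S, ∀ j ∈ F \ S, b j ≤ b i := by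
      simpa [P] using hSP
    have hSne : S.Nonempty := by
      rw [Finset.nonempty_iff_ne_empty]
      rintro rfl
      norm_num at hS1
    obtain ⟨m, hmS, hmin⟩ := Finset.exists_min_image S b hSne
    have hmF : m ∈ F := hSF hmS
    -- all but the lowest rectangle have total width less than one
    have hlt : ∑ i ∈ S.erase m, a i < 1 := by
      by_contra hcon
      rw [not_lt] at hcon
      have hmem : S.erase m ∈ P := by
        simp only [P, Finset.mem_filter, Finset.mem_powerset]
        refine ⟨(Finset.erase_subset _ _).trans hSF, hcon, ?_⟩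
        intro i hi j hj
        have hiS : i ∈ S := Finset.mem_of_mem_erase hi
        rw [Finset.mem_sdiff] at hj
        by_cases hjS : j ∈ S
        · have hjm : j = m := by
            by_contra hne
            exact hj.2 (Finset.mem_erase.2 ⟨hne, hjS⟩)
          rw [hjm]
          exact hmin i hiS
        · exact hS2 i hiS j (Finset.mem_sdiff.2 ⟨hj.1, hjS⟩)
      have h1 := hSmin _ hmem
      have h2 := Finset.card_erase_lt_of_mem hmS
      omega
    have hcS : ∑ i ∈ S.erase m, a i * b i ≤ c :=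
      hcF _ ((Finset.erase_subset _ _).trans hSF) hlt
    have hcard : (F \ S).card < n := by
      rw [← hF]
      exact Finset.card_lt_card (Finset.sdiff_ssubset hSF hSne)
    have hbm : 0 ≤ b m := hb m
    obtain ⟨H, hH0, hHcov, hHsum⟩ := ih (F \ S).card hcard (F \ S) rfl (b m) hbm (by
      intro T hT hT1
      calc ∑ i ∈ T, a i * b i ≤ ∑ i ∈ T, a i * b m := by
            apply Finset.sum_le_sum
            intro i hi
            exact mul_le_mul_of_nonneg_left (hS2 m hmS i (hT hi)) (ha i)
        _ = (∑ i ∈ T, a i) * b m := by rw [Finset.sum_mul]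
        _ ≤ 1 * b m := mul_le_mul_of_nonneg_right hT1.le hbm
        _ = b m := one_mul _) (y0 + b m)
    refine ⟨b m + H, by positivity, ?_, ?_⟩
    · have hrow := row_finite a b S (b m) y0 hmin hS1
      have hdis : Disjoint (S : Set ι) ((F \ S : Finset ι) : Set ι) := by
        rw [Finset.disjoint_coe]
        exact Finset.disjoint_sdiff
      obtain ⟨v, hv⟩ := hrow.union hHcov hdis
      refine ⟨v, fun x hx => ?_⟩
      have hx' : x ∈ (Set.Icc (0:ℝ) 1 ×ˢ Set.Icc y0 (y0 + b m)) ∪
          (Set.Icc (0:ℝ) 1 ×ˢ Set.Ico (y0 + b m) (y0 + b m + H)) := by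
        rcases x with ⟨p, q⟩
        obtain ⟨hp, hq0, hq1⟩ := hx
        simp only at hq0 hq1
        by_cases hq : q ≤ y0 + b m
        · exact Or.inl ⟨hp, hq0, hq⟩
        · exact Or.inr ⟨hp, (not_le.1 hq).le, by simp only; linarith⟩
      have := hv hx'
      simp only [mem_iUnion] at this ⊢
      obtain ⟨i, hi, hxi⟩ := this
      refine ⟨i, ?_, hxi⟩
      rcases hi with hi | hi
      · exact hSF hi
      · exact (Finset.mem_sdiff.1 hi).1
    · have e1 : ∑ i ∈ F, a i * b i = ∑ i ∈ F \ S, a i * b i + ∑ i ∈ S, a i * b i :=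
        (Finset.sum_sdiff hSF).symm
      have e2 : ∑ i ∈ S, a i * b i = ∑ i ∈ S.erase m, a i * b i + a m * b m :=
        (Finset.sum_erase_add S _ hmS).symm
      have e3 : a m * b m ≤ b m := by
        have := mul_le_mul_of_nonneg_right (ha1 m) hbm
        linarith
      linarith

/-- A finite subfamily of area more than `2 + c` covers the square, if all its subfamilies of
total width less than one have area at most `c`. -/
theorem cover_of_finset {ι : Type*} (a b : ι → ℝ) (ha : ∀ i, 0 ≤ a i) (ha1 : ∀ i, a i ≤ 1)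
    (hb : ∀ i, 0 ≤ b i) (F : Finset ι) (c : ℝ) (hc : 0 ≤ c)
    (hcF : ∀ S ⊆ F, ∑ i ∈ S, a i < 1 → ∑ i ∈ S, a i * b i ≤ c)
    (hF : 2 + c < ∑ i ∈ F, a i * b i) :
    ∃ v : ι → ℝ × ℝ, Set.Icc ((0 : ℝ), (0 : ℝ)) (1, 1) ⊆ ⋃ i, rect (v i) (a i) (b i) := by
  obtain ⟨H, hH0, ⟨v, hv⟩, hH⟩ := greedy a b ha ha1 hb F.card F rfl c hc hcF 0
  have hH1 : 1 < H := by linarith
  refine ⟨v, fun x hx => ?_⟩
  rcases x with ⟨p, q⟩
  obtain ⟨⟨h1, h2⟩, h3, h4⟩ := hx
  simp only at h1 h2 h3 h4
  have hx' : (p, q) ∈ (Set.Icc (0:ℝ) 1 ×ˢ Set.Ico (0:ℝ) (0 + H)) :=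
    ⟨⟨h1, h3⟩, h2, by simp only; linarith⟩
  have := hv hx'
  simp only [mem_iUnion] at this ⊢
  obtain ⟨i, _, hxi⟩ := this
  exact ⟨i, hxi⟩

/-- Countably many intervals of total length at least one cover `[0,1]`, and only those of
positive length are needed. -/
theorem line_infinite {ι : Type*} [Countable ι] (f : ι → ℝ) (hf : ∀ i, 0 ≤ f i)
    (hs : Summable f) (h1 : 1 ≤ ∑' i, f i) :
    ∃ x : ι → ℝ, ∀ y : ℝ, 0 ≤ y → y ≤ 1 → ∃ i, 0 < f i ∧ x i ≤ y ∧ y ≤ x i + f i := by
  classical
  obtain ⟨i0, hi0⟩ : ∃ i, 0 < f i := by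
    by_contra hcon
    push Not at hcon
    have : f = fun _ => 0 := funext fun i => le_antisymm (hcon i) (hf i)
    rw [this] at h1
    simp at h1
    linarith
  obtain ⟨e, he⟩ := exists_injective_nat ι
  -- the other lengths, placed along the natural numbers
  let g : ι → ℝ := fun i => if i = i0 then 0 else f i
  have hg0 : ∀ i, 0 ≤ g i := fun i => by
    by_cases h : i = i0 <;> simp [g, h, hf]
  have hgs : Summable g := by
    refine Summable.of_nonneg_of_le hg0 (fun i => ?_) hs
    by_cases h : i = i0 <;> simp [g, h, hf]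
  have hgsum : ∑' i, f i = f i0 + ∑' i, g i := by
    rw [hs.tsum_eq_add_tsum_ite i0]
  let c : ℕ → ℝ := Function.extend e g 0
  have hcs : HasSum c (∑' i, g i) := by
    have := hgs.hasSum
    exact (hasSum_extend_zero he).2 this
  have hc0 : ∀ n, 0 ≤ c n := by
    intro n
    by_cases hn : ∃ i, e i = n
    · obtain ⟨i, rfl⟩ := hn
      rw [show c (e i) = g i from he.extend_apply _ _ _]
      exact hg0 i
    · rw [show c n = 0 from Function.extend_apply' _ _ _ hn]
  refine ⟨fun i => if i = i0 then 1 - f i0 else ∑ n ∈ Finset.range (e i), c n,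
    fun y hy0 hy1 => ?_⟩
  by_cases hy : 1 - f i0 ≤ y
  · exact ⟨i0, hi0, by simpa using hy, by simpa using hy1⟩
  · rw [not_le] at hy
    have hlim : Filter.Tendsto (fun n => ∑ k ∈ Finset.range n, c k) Filter.atTop
        (nhds (∑' i, g i)) := hcs.tendsto_sum_nat
    have hyL : y < ∑' i, g i := by linarith
    have hex : ∃ n, y < ∑ k ∈ Finset.range n, c k :=
      (hlim.eventually (lt_mem_nhds hyL)).exists
    obtain ⟨hN, hNmin⟩ : y < ∑ k ∈ Finset.range (Nat.find hex), c k ∧
        ∀ m < Nat.find hex, ¬ y < ∑ k ∈ Finset.range m, c k :=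
      ⟨Nat.find_spec hex, fun m hm => Nat.find_min hex hm⟩
    obtain ⟨N, hNeq⟩ : ∃ N, Nat.find hex = N + 1 := by
      rcases Nat.eq_zero_or_pos (Nat.find hex) with h0 | h0
      · rw [h0] at hN
        simp at hN
        linarith
      · exact ⟨Nat.find hex - 1, by omega⟩
    rw [hNeq] at hN hNmin
    have hN1 : ∑ k ∈ Finset.range N, c k ≤ y := not_lt.1 (hNmin N (Nat.lt_succ_self N))
    rw [Finset.sum_range_succ] at hN
    have hcN : 0 < c N := by linarith
    have hNe : ∃ i, e i = N := by
      by_contra hcon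
      rw [show c N = 0 from Function.extend_apply' _ _ _ hcon] at hcN
      exact lt_irrefl _ hcN
    obtain ⟨i, hi⟩ := hNe
    have hcg : c N = g i := by
      rw [← hi]
      exact he.extend_apply _ _ _
    have hii0 : i ≠ i0 := by
      intro h
      rw [hcg, h] at hcN
      simp [g] at hcN
    have hgf : g i = f i := by simp [g, hii0]
    refine ⟨i, ?_, ?_, ?_⟩
    · rw [← hgf, ← hcg]; exact hcN
    · simp only [hii0, if_false, hi]; exact hN1
    · simp only [hii0, if_false, hi]
      rw [← hgf, ← hcg]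
      exact hN.le

/-- **Moser's question on covering the unit square by rectangles, answered positively.**
Every finite or countably infinite family of closed axis-parallel rectangles `[0, a i] × [0, b i]`
with side lengths at most one and total area at least three (possibly infinite) can be translated
so as to cover the unit square. -/
theorem result {ι : Type*} [Countable ι] (a b : ι → ℝ)
    (ha : ∀ i, 0 ≤ a i ∧ a i ≤ 1) (hb : ∀ i, 0 ≤ b i ∧ b i ≤ 1)
    (harea : 3 ≤ ∑' i, ENNReal.ofReal (a i * b i)) :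
    ∃ v : ι → ℝ × ℝ, Set.Icc ((0 : ℝ), (0 : ℝ)) (1, 1) ⊆
      ⋃ i, (fun x => v i + x) '' Set.Icc ((0 : ℝ), (0 : ℝ)) (a i, b i) := by
  classical
  have ha0 : ∀ i, 0 ≤ a i := fun i => (ha i).1
  have ha1 : ∀ i, a i ≤ 1 := fun i => (ha i).2
  have hb0 : ∀ i, 0 ≤ b i := fun i => (hb i).1
  have hb1 : ∀ i, b i ≤ 1 := fun i => (hb i).2
  have hab0 : ∀ i, 0 ≤ a i * b i := fun i => mul_nonneg (ha0 i) (hb0 i)
  change ∃ v : ι → ℝ × ℝ, Set.Icc ((0 : ℝ), (0 : ℝ)) (1, 1) ⊆ ⋃ i, rect (v i) (a i) (b i)
  -- a finite subfamily of area more than three settles the matter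
  by_cases hfin : ∃ F : Finset ι, 3 < ∑ i ∈ F, a i * b i
  · obtain ⟨F, hF⟩ := hfin
    refine cover_of_finset a b ha0 ha1 hb0 F 1 zero_le_one ?_ (by linarith)
    intro S _ hS
    refine le_trans (Finset.sum_le_sum fun i _ => ?_) hS.le
    exact mul_le_of_le_one_right (ha0 i) (hb1 i)
  push Not at hfin
  have hsum : Summable fun i => a i * b i := summable_of_sum_le hab0 hfin
  have htot : 3 ≤ ∑' i, a i * b i := by
    rw [← ENNReal.ofReal_tsum_of_nonneg hab0 hsum] at harea
    have h3 : (3 : ENNReal) = ENNReal.ofReal 3 := by simp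
    rw [h3] at harea
    exact (ENNReal.ofReal_le_ofReal_iff (tsum_nonneg hab0)).1 harea
  -- widths of the rectangles of height at least one half are summable
  let f : ι → ℝ := fun i => if 1 / 2 ≤ b i then a i else 0
  have hf0 : ∀ i, 0 ≤ f i := fun i => by
    by_cases h : 1 / 2 ≤ b i <;> simp only [f, h, if_true, if_false, le_refl, ha0 i]
  have hfs : Summable f := by
    refine Summable.of_nonneg_of_le hf0 (fun i => ?_) (hsum.mul_left 2)
    by_cases h : 1 / 2 ≤ b i
    · simp only [f, h, if_true]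
      nlinarith [ha0 i]
    · simp only [f, h, if_false]
      have := hab0 i
      linarith
  -- widths of the rectangles of height one
  let t : ι → ℝ := fun i => if b i = 1 then a i else 0
  have ht0 : ∀ i, 0 ≤ t i := fun i => by
    by_cases h : b i = 1 <;> simp only [t, h, if_true, if_false, le_refl, ha0 i]
  have hts : Summable t := by
    refine Summable.of_nonneg_of_le ht0 (fun i => ?_) hfs
    by_cases h : b i = 1
    · have h2 : (1 : ℝ) / 2 ≤ b i := by rw [h]; norm_num
      simp only [t, f, h, if_true]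
      norm_num
    · simp only [t, h, if_false]
      exact hf0 i
  by_cases hT : 1 ≤ ∑' i, t i
  · -- the rectangles of height one cover the square
    obtain ⟨x, hx⟩ := line_infinite t ht0 hts hT
    refine ⟨fun i => (x i, 0), ?_⟩
    rintro ⟨p, q⟩ ⟨⟨hp0, hq0⟩, hp1, hq1⟩
    simp only at hp0 hq0 hp1 hq1
    obtain ⟨i, hi, h1, h2⟩ := hx p hp0 hp1
    have hbi : b i = 1 := by
      by_contra hne
      simp only [t, hne, if_false] at hi
      exact lt_irrefl _ hi
    have hti : t i = a i := by simp only [t, hbi, if_true]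
    rw [hti] at h2
    simp only [mem_iUnion]
    exact ⟨i, mem_rect.2 ⟨⟨h1, h2⟩, hq0, by simp only; linarith⟩⟩
  · rw [not_le] at hT
    set τ : ℝ := (1 - ∑' i, t i) / 2 with hτ
    have hτ0 : 0 < τ := by rw [hτ]; linarith
    -- a finite set carrying most of the width of the high rectangles
    obtain ⟨K, hK⟩ : ∃ K : Finset ι, ∀ S : Finset ι, Disjoint S K → ∑ i ∈ S, f i < τ := by
      obtain ⟨K, hK⟩ := summable_iff_vanishing_norm.1 hfs τ hτ0
      refine ⟨K, fun S hS => ?_⟩
      have := hK S hS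
      rw [Real.norm_eq_abs] at this
      exact lt_of_le_of_lt (le_abs_self _) this
    -- heights in K other than one stay away from one
    obtain ⟨δ, hδ0, hδ1, hδK⟩ : ∃ δ : ℝ, 0 < δ ∧ δ ≤ 1 / 2 ∧ ∀ i ∈ K, b i ≠ 1 → b i < 1 - δ := by
      have hkey : ∀ K' : Finset ι, ∃ δ : ℝ, 0 < δ ∧ δ ≤ 1 / 2 ∧
          ∀ i ∈ K', b i ≠ 1 → b i < 1 - δ := by
        intro K'
        induction K' using Finset.induction_on with
        | empty => exact ⟨1 / 2, by norm_num, le_rfl, by simp⟩
        | insert j K' hj ih =>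
          obtain ⟨δ, h0, h1, h2⟩ := ih
          by_cases hbj : b j = 1
          · refine ⟨δ, h0, h1, fun i hi hne => ?_⟩
            rcases Finset.mem_insert.1 hi with rfl | hi
            · exact absurd hbj hne
            · exact h2 i hi hne
          · have hlt : b j < 1 := lt_of_le_of_ne (hb1 j) hbj
            refine ⟨min δ ((1 - b j) / 2), lt_min h0 (by linarith),
              le_trans (min_le_left _ _) h1, fun i hi hne => ?_⟩
            rcases Finset.mem_insert.1 hi with rfl | hi
            · have := min_le_right δ ((1 - b i) / 2)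
              linarith
            · have := min_le_left δ ((1 - b j) / 2)
              have := h2 i hi hne
              linarith
      exact hkey K
    -- total width of the very high rectangles
    have hhigh : ∀ S : Finset ι, (∀ i ∈ S, 1 - δ ≤ b i) → ∑ i ∈ S, a i ≤ 1 - τ := by
      intro S hS
      have hsplit : ∑ i ∈ S, a i = ∑ i ∈ S.filter (· ∈ K), a i + ∑ i ∈ S.filter (· ∉ K), a i :=
        (Finset.sum_filter_add_sum_filter_not S _ _).symm
      have h1 : ∑ i ∈ S.filter (· ∈ K), a i ≤ ∑' i, t i := by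
        calc ∑ i ∈ S.filter (· ∈ K), a i = ∑ i ∈ S.filter (· ∈ K), t i := by
              apply Finset.sum_congr rfl
              intro i hi
              rw [Finset.mem_filter] at hi
              have hbi : b i = 1 := by
                by_contra hne
                have := hδK i hi.2 hne
                have := hS i hi.1
                linarith
              simp only [t, hbi, if_true]
          _ ≤ ∑' i, t i := hts.sum_le_tsum _ (fun i _ => ht0 i)
      have h2 : ∑ i ∈ S.filter (· ∉ K), a i < τ := by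
        calc ∑ i ∈ S.filter (· ∉ K), a i = ∑ i ∈ S.filter (· ∉ K), f i := by
              apply Finset.sum_congr rfl
              intro i hi
              rw [Finset.mem_filter] at hi
              have hbi : 1 / 2 ≤ b i := by
                have := hS i hi.1
                linarith
              simp only [f, hbi, if_true]
          _ < τ := by
              apply hK
              rw [Finset.disjoint_left]
              intro i hi hiK
              exact (Finset.mem_filter.1 hi).2 hiK
      have : 1 - ∑' i, t i = 2 * τ := by rw [hτ]; ring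
      linarith
    -- a finite subfamily of almost full area
    have hδτ : 0 < δ * τ := mul_pos hδ0 hτ0
    have hτ1 : τ ≤ 1 / 2 := by
      have : 0 ≤ ∑' i, t i := tsum_nonneg ht0
      rw [hτ]; linarith
    obtain ⟨F, hF⟩ : ∃ F : Finset ι, 3 - δ * τ < ∑ i ∈ F, a i * b i := by
      have hlt : 3 - δ * τ < ∑' i, a i * b i := by linarith
      exact (hsum.hasSum.eventually (lt_mem_nhds hlt)).exists
    refine cover_of_finset a b ha0 ha1 hb0 F (1 - δ * τ) (by nlinarith) ?_ (by linarith)
    intro S _ hS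
    have hsplit : ∑ i ∈ S, a i * b i = ∑ i ∈ S.filter (fun i => 1 - δ ≤ b i), a i * b i +
        ∑ i ∈ S.filter (fun i => ¬ (1 - δ ≤ b i)), a i * b i :=
      (Finset.sum_filter_add_sum_filter_not S _ _).symm
    have hsplit' : ∑ i ∈ S, a i = ∑ i ∈ S.filter (fun i => 1 - δ ≤ b i), a i +
        ∑ i ∈ S.filter (fun i => ¬ (1 - δ ≤ b i)), a i :=
      (Finset.sum_filter_add_sum_filter_not S _ _).symm
    have h1 : ∑ i ∈ S.filter (fun i => 1 - δ ≤ b i), a i * b i ≤
        ∑ i ∈ S.filter (fun i => 1 - δ ≤ b i), a i :=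
      Finset.sum_le_sum fun i _ => mul_le_of_le_one_right (ha0 i) (hb1 i)
    have h2 : ∑ i ∈ S.filter (fun i => ¬ (1 - δ ≤ b i)), a i * b i ≤
        (1 - δ) * ∑ i ∈ S.filter (fun i => ¬ (1 - δ ≤ b i)), a i := by
      rw [Finset.mul_sum]
      refine Finset.sum_le_sum fun i hi => ?_
      have := not_le.1 (Finset.mem_filter.1 hi).2
      nlinarith [ha0 i]
    have h3 := hhigh (S.filter (fun i => 1 - δ ≤ b i)) (fun i hi => (Finset.mem_filter.1 hi).2)
    have h4 : 0 ≤ ∑ i ∈ S.filter (fun i => 1 - δ ≤ b i), a i :=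
      Finset.sum_nonneg fun i _ => ha0 i
    have h5 : 0 ≤ ∑ i ∈ S.filter (fun i => ¬ (1 - δ ≤ b i)), a i :=
      Finset.sum_nonneg fun i _ => ha0 i
    nlinarith

end Pool.Agent.Results.MP_6800d9_co.UnitSquareAreaThree
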